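import Mathlib
import Pool.Agent.Lib_MP_4b4323_gt.Main

set_option autoImplicit false

open Pool.Agent.LibStein

namespace Pool.Agent.Results.MP_4b4323_gt.NotSteinFillable

/-- No field of subspaces (in particular no contact structure) on `P` is Stein fillable. -/
theorem result.{u} (ξ : (Fin 5 → ℝ) → Submodule ℝ (Fin 5 → ℝ)) : ¬ SteinFillable.{u} ξ := by
  rintro ⟨X, _, _, _, hX, φ, c, p, hW, hp⟩
  exact not_filling (EuclideanSpace ℂ (Fin 3)) (by simp) hX ξ φ c p hW hp

/-- The prequantization contact structure `ker α`, `α = dz + x₁dy₁ + x₂dy₂`. -/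
def prequantization (y : Fin 5 → ℝ) : Submodule ℝ (Fin 5 → ℝ) where
  carrier := {v | v 4 + y 0 * v 1 + y 2 * v 3 = 0}
  add_mem' := by
    intro v w hv hw
    have h1 : v 4 + y 0 * v 1 + y 2 * v 3 = 0 := hv
    have h2 : w 4 + y 0 * w 1 + y 2 * w 3 = 0 := hw
    change v 4 + w 4 + y 0 * (v 1 + w 1) + y 2 * (v 3 + w 3) = 0
    linarith
  zero_mem' := by simp
  smul_mem' := by
    intro t v hv
    have h1 : v 4 + y 0 * v 1 + y 2 * v 3 = 0 := hv
    change t * v 4 + y 0 * (t * v 1) + y 2 * (t * v 3) = 0
    linear_combination t * h1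

/-- The posed question: `(P, ξ)` with `ξ = ker α` has no Stein filling. -/
theorem prequantization_not_fillable.{u} : ¬ SteinFillable.{u} prequantization :=
  result prequantization

end Pool.Agent.Results.MP_4b4323_gt.NotSteinFillable
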